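import Pool.Agent.H84.Sym.Defs2
import Pool.Agent.H29.Sym.S
import Pool.Agent.H29.Sym.C
import Pool.Agent.H91.Sym.P1

/-! Module P5 of project SYM2: the inequality on the fixed space. -/

set_option autoImplicit false

open MeasureTheory Set Filter Topology
open scoped ContDiff Pointwise

namespace Pool.Agent.H84.Sym

universe v

variable {E : Type v} [NormedAddCommGroup E] [InnerProductSpace ℝ E]
    [FiniteDimensional ℝ E] [MeasurableSpace E] [BorelSpace E]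
variable {ι : Type*} [Fintype ι]

namespace P5

open C29

/-- Coercivity from the Poincare inequality. -/
theorem coer_of_gpc (b : OrthonormalBasis ι ℝ E) {W u : E → ℝ} {t C κ : ℝ} (hW : Pot W t C)
    [IsProbabilityMeasure (mu W)] (hpc : GPC (mu W) κ) (hκ : 0 < κ) (hu : Tst u) :
    ∫ x, ‖fderiv ℝ u x‖ ^ 2 ∂(mu W) ≤ κ * ∫ x, (LO b W u x) ^ 2 ∂(mu W) := by
  have hpc' : GPC (mu W) (1 / (1 / κ)) := by rwa [one_div_one_div]
  have h := final_est b hW (one_div_pos.2 hκ) hpc' hu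
  have h0 : 0 ≤ ∫ x, (LO b W u x + 1 / κ * (u x - ∫ y, u y ∂(mu W))) ^ 2 ∂(mu W) :=
    integral_nonneg fun x => sq_nonneg _
  have h1 : 1 / κ * ∫ x, ‖fderiv ℝ u x‖ ^ 2 ∂(mu W) ≤ ∫ x, (LO b W u x) ^ 2 ∂(mu W) := by
    linarith
  calc ∫ x, ‖fderiv ℝ u x‖ ^ 2 ∂(mu W) = κ * (1 / κ * ∫ x, ‖fderiv ℝ u x‖ ^ 2 ∂(mu W)) := by
        field_simp
    _ ≤ _ := mul_le_mul_of_nonneg_left h1 hκ.le

/-- the gradient. -/
noncomputable def grad (b : OrthonormalBasis ι ℝ E) (u : E → ℝ) (x : E) : E :=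
  ∑ i, D (b i) u x • b i

theorem norm_grad (b : OrthonormalBasis ι ℝ E) (u : E → ℝ) (x : E) :
    ‖grad b u x‖ ^ 2 = ‖fderiv ℝ u x‖ ^ 2 := by
  rw [norm_fderiv_sq b u x]
  exact S29.normsq_expand b _

theorem apply_grad (b : OrthonormalBasis ι ℝ E) (u : E → ℝ) (x : E) (ℓ : E →L[ℝ] ℝ) :
    ℓ (grad b u x) = ∑ i, D (b i) u x * ℓ (b i) := by
  simp [grad]

theorem hess_grad (b : OrthonormalBasis ι ℝ E) {W : E → ℝ} (hW : ContDiff ℝ 2 W) (u : E → ℝ)
    (x : E) : fderiv ℝ (fderiv ℝ W) x (grad b u x) (grad b u x) =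
      ∑ i, ∑ j, D (b i) (D (b j) W) x * D (b i) u x * D (b j) u x := by
  rw [grad]
  simp only [map_sum, map_smul, ContinuousLinearMap.sum_apply, ContinuousLinearMap.smul_apply,
      smul_eq_mul, Finset.mul_sum]
  rw [Finset.sum_comm]
  refine Finset.sum_congr rfl fun i _ => Finset.sum_congr rfl fun j _ => ?_
  rw [D_D hW]
  ring

theorem cont_grad (b : OrthonormalBasis ι ℝ E) {u : E → ℝ} (hu : ContDiff ℝ 1 u) :
    Continuous (grad b u) :=
  continuous_finsetSum _ fun i _ => (D_cont hu _).smul continuous_const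

theorem supp_grad (b : OrthonormalBasis ι ℝ E) {u : E → ℝ} (hc : HasCompactSupport u) :
    HasCompactSupport (grad b u) := by
  apply HasCompactSupport.intro hc
  intro x hx
  have hx' : u =ᶠ[𝓝 x] fun _ => (0 : ℝ) := by
    have := (isClosed_tsupport u).isOpen_compl.mem_nhds hx
    filter_upwards [this] with y hy
    exact image_eq_zero_of_notMem_tsupport hy
  rw [grad]
  refine Finset.sum_eq_zero fun i _ => ?_
  simp only [D]
  rw [hx'.fderiv_eq]
  simp

/-- The case of a positive constant. -/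
theorem marg_pos {W h : E → ℝ} {t C κ : ℝ} (hW : Pot W t C) [IsProbabilityMeasure (mu W)]
    (hκ : 0 < κ) (hpc : GPC (mu W) κ) (hh : ContDiff ℝ 1 h) (hc : HasCompactSupport h)
    {p r : E → E →L[ℝ] ℝ} (hp : Continuous p) (hr : Continuous r)
    (hpr : ∀ x, fderiv ℝ h x = p x + r x) {γ : E → ℝ} (hγ : Continuous γ) (hγ0 : ∀ x, 0 ≤ γ x)
    (hγc : HasCompactSupport γ)
    (hrγ : ∀ x ν, (r x ν) ^ 2 ≤ γ x * fderiv ℝ (fderiv ℝ W) x ν ν) :
    (∫ x, h x ^ 2 ∂(mu W)) - (∫ x, h x ∂(mu W)) ^ 2 ≤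
      2 * κ * (∫ x, ‖p x‖ ^ 2 ∂(mu W)) + 2 * ∫ x, γ x ∂(mu W) := by
  have hfin := isFinite_mu hW
  have hM : (mu W).real univ = 1 := by simp
  set b := stdOrthonormalBasis ℝ E with hb
  set c := ∫ x, h x ∂(mu W) with hcdef
  have hm : c * (mu W).real univ = ∫ x, h x ∂(mu W) := by rw [hM, mul_one]
  have hV := rel2 hW hh hc c hm
  rw [hM, one_mul, one_mul] at hV
  rw [hV]
  -- supports
  have hr0 : ∀ x, γ x = 0 → r x = 0 := by
    intro x hx
    ext ν
    have h1 := hrγ x ν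
    rw [hx, zero_mul] at h1
    have h2 : (r x ν) ^ 2 = 0 := le_antisymm h1 (sq_nonneg _)
    simpa using h2
  have hrc : HasCompactSupport r := by
    apply HasCompactSupport.intro hγc
    intro x hx
    exact hr0 x (image_eq_zero_of_notMem_tsupport hx)
  have hpc' : HasCompactSupport p := by
    have h1 : p = fun x => fderiv ℝ h x - r x := by
      funext x
      rw [hpr]; simp
    rw [h1]
    exact (hc.fderiv (𝕜 := ℝ)).sub hrc
  refine le_of_forall_pos_le_add fun ε hε => ?_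
  obtain ⟨u, hu, hue⟩ := dense_range b hW hh hc hm hε
  have hu1 : ContDiff ℝ 1 u := hu.1.of_le (by exact_mod_cast (le_top : (1 : ℕ∞) ≤ ⊤))
  have hu3 : ContDiff ℝ 3 u := contDiff_infty.mp hu.1 3
  have e1 := rel1 b hW hu hh hc c
  rw [e1] at hue
  have e2 := coer_of_gpc b hW hpc hκ hu
  have e3 := bochner_full b hW.smooth hu3 hu.2
  have e4 : 0 ≤ ∫ x, (∑ i, ‖fderiv ℝ (D (b i) u) x‖ ^ 2) ∂(mu W) :=
    integral_nonneg fun x => Finset.sum_nonneg fun i _ => sq_nonneg _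
  set X := ∫ x, (LO b W u x) ^ 2 ∂(mu W) with hX
  -- pointwise estimate
  have hpt : ∀ x, 2 * (∑ i, D (b i) u x * D (b i) h x) ≤
      (2 * κ * ‖p x‖ ^ 2 + 2 * γ x) + (1 / (2 * κ) * ‖fderiv ℝ u x‖ ^ 2 +
        1 / 2 * ∑ i, ∑ j, D (b i) (D (b j) W) x * D (b i) u x * D (b j) u x) := by
    intro x
    have a1 : ∑ i, D (b i) u x * D (b i) h x = p x (grad b u x) + r x (grad b u x) := by
      have := apply_grad b u x (fderiv ℝ h x)
      rw [hpr x, ContinuousLinearMap.add_apply] at this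
      rw [this]
      refine Finset.sum_congr rfl fun i _ => ?_
      simp only [D]
      rw [hpr x]
    have a2 : 2 * p x (grad b u x) ≤ 2 * κ * ‖p x‖ ^ 2 + 1 / (2 * κ) * ‖fderiv ℝ u x‖ ^ 2 := by
      rw [← norm_grad b u x]
      have h1 : p x (grad b u x) ≤ ‖p x‖ * ‖grad b u x‖ :=
        (le_abs_self _).trans ((p x).le_opNorm _)
      have h2 : 0 ≤ (2 * κ * ‖p x‖ - ‖grad b u x‖) ^ 2 / (2 * κ) := by positivity
      have h3 : (2 * κ * ‖p x‖ - ‖grad b u x‖) ^ 2 / (2 * κ) =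
          2 * κ * ‖p x‖ ^ 2 + 1 / (2 * κ) * ‖grad b u x‖ ^ 2 - 2 * (‖p x‖ * ‖grad b u x‖) := by
        field_simp
        ring
      linarith
    have a3 : 2 * r x (grad b u x) ≤ 2 * γ x + 1 / 2 *
        ∑ i, ∑ j, D (b i) (D (b j) W) x * D (b i) u x * D (b j) u x := by
      rw [← hess_grad b hW.smooth]
      have h1 := hrγ x (grad b u x)
      set H := fderiv ℝ (fderiv ℝ W) x (grad b u x) (grad b u x) with hH
      have hH0 : 0 ≤ H := by
        have := hW.hess x (grad b u x)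
        have h2 := hW.pos
        exact le_trans (by positivity) this
      have hg := hγ0 x
      by_contra hcon
      push_neg at hcon
      have h5 : 0 ≤ 2 * γ x + 1 / 2 * H := by positivity
      have h6 : (2 * γ x + 1 / 2 * H) ^ 2 < (2 * r x (grad b u x)) ^ 2 := by
        apply pow_lt_pow_left₀ hcon h5 (by norm_num)
      nlinarith [sq_nonneg (2 * γ x - 1 / 2 * H)]
    rw [a1]
    linarith
  -- integrability
  have i1 := ((BC.sum (s := Finset.univ) fun i => (D_BC hu1 hu.2 (b i)).mul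
    (D_BC hh hc (b i))).integrable (mu W)).const_mul 2
  have hpn : BC (fun x => ‖p x‖ ^ 2) := by
    refine BC.of_compact (hp.norm.pow 2) ?_
    have := hpc'.norm
    rw [show (fun x => ‖p x‖ ^ 2) = (fun x => ‖p x‖) * (fun x => ‖p x‖) by
      funext x; simp [sq]]
    exact this.mul_left
  have i2 := (hpn.integrable (mu W)).const_mul (2 * κ)
  have i3 := ((BC.of_compact hγ hγc).integrable (mu W)).const_mul 2
  have i4 := ((grad_BC hu1 hu.2).integrable (mu W)).const_mul (1 / (2 * κ))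
  have hW2 : Continuous (fderiv ℝ (fderiv ℝ W)) :=
    (hW.smooth.fderiv_right (m := 1) (by norm_num)).continuous_fderiv (by norm_num)
  have hHc : Continuous (fun x => fderiv ℝ (fderiv ℝ W) x (grad b u x) (grad b u x)) :=
    (hW2.clm_apply (cont_grad b hu1)).clm_apply (cont_grad b hu1)
  have hHs : HasCompactSupport
      (fun x => fderiv ℝ (fderiv ℝ W) x (grad b u x) (grad b u x)) := by
    apply HasCompactSupport.intro (supp_grad b hu.2)
    intro x hx
    have : grad b u x = 0 := image_eq_zero_of_notMem_tsupport hx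
    rw [this]; simp
  have i5 : Integrable (fun x => ∑ i, ∑ j, D (b i) (D (b j) W) x * D (b i) u x * D (b j) u x)
      (mu W) := by
    have h1 : (fun x => ∑ i, ∑ j, D (b i) (D (b j) W) x * D (b i) u x * D (b j) u x) =
        fun x => fderiv ℝ (fderiv ℝ W) x (grad b u x) (grad b u x) := by
      funext x
      exact (hess_grad b hW.smooth u x).symm
    rw [h1]
    exact (BC.of_compact hHc hHs).integrable (mu W)
  have hmono := integral_mono i1 ((i2.add i3).add (i4.add (i5.const_mul (1 / 2)))) hpt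
  have hsplit : ∫ x, ((2 * κ * ‖p x‖ ^ 2 + 2 * γ x) + (1 / (2 * κ) * ‖fderiv ℝ u x‖ ^ 2 +
        1 / 2 * ∑ i, ∑ j, D (b i) (D (b j) W) x * D (b i) u x * D (b j) u x)) ∂(mu W) =
      (2 * κ * (∫ x, ‖p x‖ ^ 2 ∂(mu W)) + 2 * ∫ x, γ x ∂(mu W)) +
      (1 / (2 * κ) * (∫ x, ‖fderiv ℝ u x‖ ^ 2 ∂(mu W)) +
        1 / 2 * ∫ x, (∑ i, ∑ j, D (b i) (D (b j) W) x * D (b i) u x * D (b j) u x) ∂(mu W)) := by
    have s1 := integral_add (i2.add i3) (i4.add (i5.const_mul (1 / 2)))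
    have s2 := integral_add i2 i3
    have s3 := integral_add i4 (i5.const_mul (1 / 2))
    simp only [Pi.add_apply, integral_const_mul] at s1 s2 s3
    rw [s1, s2, s3]
  have hmono2 : 2 * (∫ x, (∑ i, D (b i) u x * D (b i) h x) ∂(mu W)) ≤
      (2 * κ * (∫ x, ‖p x‖ ^ 2 ∂(mu W)) + 2 * ∫ x, γ x ∂(mu W)) +
      (1 / (2 * κ) * (∫ x, ‖fderiv ℝ u x‖ ^ 2 ∂(mu W)) +
        1 / 2 * ∫ x, (∑ i, ∑ j, D (b i) (D (b j) W) x * D (b i) u x * D (b j) u x) ∂(mu W)) := by
    rw [← hsplit, ← integral_const_mul]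
    exact hmono
  have e5 : 1 / (2 * κ) * (∫ x, ‖fderiv ℝ u x‖ ^ 2 ∂(mu W)) ≤ 1 / 2 * X := by
    calc 1 / (2 * κ) * (∫ x, ‖fderiv ℝ u x‖ ^ 2 ∂(mu W)) ≤ 1 / (2 * κ) * (κ * X) :=
          mul_le_mul_of_nonneg_left e2 (by positivity)
      _ = _ := by field_simp
  linarith

end P5

theorem marg_ineq {W h : E → ℝ} {t C κ : ℝ} (hW : Pot W t C) [IsProbabilityMeasure (mu W)]
    (hκ : 0 ≤ κ) (hpc : GPC (mu W) κ) (hh : ContDiff ℝ 1 h) (hc : HasCompactSupport h)
    {p r : E → E →L[ℝ] ℝ} (hp : Continuous p) (hr : Continuous r)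
    (hpr : ∀ x, fderiv ℝ h x = p x + r x) {γ : E → ℝ} (hγ : Continuous γ) (hγ0 : ∀ x, 0 ≤ γ x)
    (hγc : HasCompactSupport γ)
    (hrγ : ∀ x ν, (r x ν) ^ 2 ≤ γ x * fderiv ℝ (fderiv ℝ W) x ν ν) :
    (∫ x, h x ^ 2 ∂(mu W)) - (∫ x, h x ∂(mu W)) ^ 2 ≤
      2 * κ * (∫ x, ‖p x‖ ^ 2 ∂(mu W)) + 2 * ∫ x, γ x ∂(mu W) := by
  have hP : 0 ≤ ∫ x, ‖p x‖ ^ 2 ∂(mu W) := integral_nonneg fun x => sq_nonneg _
  set P := ∫ x, ‖p x‖ ^ 2 ∂(mu W) with hPdef
  refine le_of_forall_pos_le_add fun ε hε => ?_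
  set δ := ε / (2 * (P + 1)) with hδ
  have hδ0 : 0 < δ := by positivity
  have hpc' : GPC (mu W) (κ + δ) := by
    intro f hf hfc
    have h1 := hpc f hf hfc
    have h2 : 0 ≤ (mu W).real univ * ∫ x, ‖fderiv ℝ f x‖ ^ 2 ∂(mu W) :=
      mul_nonneg measureReal_nonneg (integral_nonneg fun x => sq_nonneg _)
    nlinarith
  have h := P5.marg_pos hW (by positivity : 0 < κ + δ) hpc' hh hc hp hr hpr hγ hγ0 hγc hrγ
  have h3 : 2 * δ * P ≤ ε := by
    rw [hδ]
    have : 2 * (ε / (2 * (P + 1))) * P = ε * (P / (P + 1)) := by field_simp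
    rw [this]
    have h4 : P / (P + 1) ≤ 1 := by
      rw [div_le_one (by positivity)]; linarith
    nlinarith
  have h5 : 2 * (κ + δ) * P = 2 * κ * P + 2 * δ * P := by ring
  linarith

end Pool.Agent.H84.Sym
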